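import Pool.Agent.Helper57.QZ.Stmts

/-! # Row PL of the sheet QZ (MP_818aa8_nt): Plancherel's inequality on a finite interval -/

set_option autoImplicit false

open MeasureTheory Set Filter Topology
open scoped ENNReal

namespace Pool.Agent.Helper76.QZ

open Pool.Agent.Helper57.QZ

/-- the transform -/
noncomputable def FT (f : ℝ → ℂ) (t : ℝ) : ℂ :=
  ∫ u, f u * Complex.exp (-((t : ℂ) * u * Complex.I))

theorem norm_e (t u : ℝ) : ‖Complex.exp (-((t : ℂ) * u * Complex.I))‖ = 1 := by
  have : -((t : ℂ) * u * Complex.I) = ((-(t * u) : ℝ) : ℂ) * Complex.I := by push_cast; ring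
  rw [this, Complex.norm_exp_ofReal_mul_I]

theorem FT_cont {f : ℝ → ℂ} (hf : Integrable f) : Continuous (FT f) := by
  unfold FT
  apply continuous_of_dominated (bound := fun u => ‖f u‖)
  · intro t
    exact hf.aestronglyMeasurable.mul (Continuous.aestronglyMeasurable (by fun_prop))
  · intro t
    refine Eventually.of_forall fun u => ?_
    rw [norm_mul, norm_e, mul_one]
  · exact hf.norm
  · refine Eventually.of_forall fun u => ?_
    fun_prop

theorem FT_bd {f : ℝ → ℂ} (t : ℝ) : ‖FT f t‖ ≤ ∫ u, ‖f u‖ := by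
  unfold FT
  refine (norm_integral_le_integral_norm _).trans (le_of_eq ?_)
  congr 1
  funext u
  rw [norm_mul, norm_e, mul_one]

theorem two_mul_le (a b : ℝ≥0∞) : 2 * (a * b) ≤ a ^ 2 + b ^ 2 := by
  rcases eq_or_ne a ⊤ with h | h
  · rw [h]; simp
  rcases eq_or_ne b ⊤ with h' | h'
  · rw [h']; simp
  lift a to NNReal using h
  lift b to NNReal using h'
  have := two_mul_le_add_sq a b
  rw [mul_assoc] at this
  exact_mod_cast this

/-- the convolution inequality -/
theorem dbl {A : ℝ → ℝ≥0∞} (hA : Measurable A) {k : ℝ → ℝ≥0∞} (hk : Measurable k) :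
    ∫⁻ u, A u * ∫⁻ v, A v * k (u - v) ≤ (∫⁻ u, A u ^ 2) * ∫⁻ w, k w := by
  have h2 : 2 * ∫⁻ u, A u * ∫⁻ v, A v * k (u - v) ≤ 2 * ((∫⁻ u, A u ^ 2) * ∫⁻ w, k w) := by
    calc 2 * ∫⁻ u, A u * ∫⁻ v, A v * k (u - v)
        = ∫⁻ u, ∫⁻ v, 2 * (A u * A v) * k (u - v) := by
          rw [← lintegral_const_mul' _ _ (by norm_num)]
          apply lintegral_congr
          intro u
          rw [← mul_assoc, ← lintegral_const_mul _ (by fun_prop)]
          apply lintegral_congr
          intro v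
          ring
      _ ≤ ∫⁻ u, ∫⁻ v, (A u ^ 2 * k (u - v) + A v ^ 2 * k (u - v)) := by
          refine lintegral_mono fun u => lintegral_mono fun v => ?_
          rw [← add_mul]
          exact mul_le_mul_left (two_mul_le _ _) _
      _ = ∫⁻ u, ((∫⁻ v, A u ^ 2 * k (u - v)) + ∫⁻ v, A v ^ 2 * k (u - v)) := by
          apply lintegral_congr
          intro u
          rw [lintegral_add_left (by fun_prop)]
      _ = (∫⁻ u, ∫⁻ v, A u ^ 2 * k (u - v)) + ∫⁻ u, ∫⁻ v, A v ^ 2 * k (u - v) := by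
          rw [lintegral_add_left]
          exact Measurable.lintegral_prod_right (by fun_prop)
      _ = (∫⁻ u, A u ^ 2) * (∫⁻ w, k w) + (∫⁻ u, A u ^ 2) * ∫⁻ w, k w := by
          congr 1
          · rw [← lintegral_mul_const _ (by fun_prop)]
            apply lintegral_congr
            intro u
            rw [lintegral_const_mul _ (by fun_prop), lintegral_sub_left_eq_self]
          · rw [lintegral_lintegral_swap (by fun_prop), ← lintegral_mul_const _ (by fun_prop)]
            apply lintegral_congr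
            intro v
            rw [lintegral_const_mul _ (by fun_prop), lintegral_sub_right_eq_self (fun w => k w)]
      _ = 2 * ((∫⁻ u, A u ^ 2) * ∫⁻ w, k w) := by ring
  exact (ENNReal.mul_le_mul_iff_right (by norm_num) (by norm_num)).1 h2

/-- the transform of the Gaussian -/
theorem gauss {T : ℝ} (hT : 0 < T) (w : ℝ) :
    ∫ t : ℝ, ((Real.exp (-(t / T) ^ 2) : ℝ) : ℂ) * Complex.exp (-((t : ℂ) * w * Complex.I)) =
      ((Real.pi / (1 / T ^ 2) : ℝ) : ℂ) ^ (1 / 2 : ℂ) *
        ((Real.exp (-(w ^ 2 * T ^ 2 / 4)) : ℝ) : ℂ) := by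
  have hb : 0 < ((1 / T ^ 2 : ℝ) : ℂ).re := by
    rw [Complex.ofReal_re]; positivity
  have h := fourierIntegral_gaussian hb (-(w : ℂ))
  have e1 : ∀ t : ℝ, ((Real.exp (-(t / T) ^ 2) : ℝ) : ℂ) *
      Complex.exp (-((t : ℂ) * w * Complex.I)) =
      Complex.exp (Complex.I * (-(w : ℂ)) * t) *
        Complex.exp (-((1 / T ^ 2 : ℝ) : ℂ) * (t : ℂ) ^ 2) := by
    intro t
    rw [Complex.ofReal_exp, ← Complex.exp_add, ← Complex.exp_add]
    congr 1
    push_cast
    field_simp
    ring
  simp_rw [e1]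
  rw [h]
  congr 1
  · push_cast; rfl
  · rw [Complex.ofReal_exp]
    congr 1
    push_cast
    have : (T : ℂ) ≠ 0 := by exact_mod_cast hT.ne'
    field_simp

open ComplexConjugate

/-- the Gaussian -/
noncomputable def Gr (T t : ℝ) : ℝ := Real.exp (-(t / T) ^ 2)

theorem Gr_pos (T t : ℝ) : 0 < Gr T t := Real.exp_pos _

theorem Gr_cont (T : ℝ) : Continuous (Gr T) := by unfold Gr; fun_prop

theorem Gr_int {T : ℝ} (hT : 0 < T) : Integrable (Gr T) := by
  have h := integrable_exp_neg_mul_sq (show 0 < 1 / T ^ 2 by positivity)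
  refine h.congr (Eventually.of_forall fun t => ?_)
  unfold Gr
  show Real.exp (-(1 / T ^ 2) * t ^ 2) = Real.exp (-(t / T) ^ 2)
  congr 1
  field_simp

/-- the kernel -/
noncomputable def Kr (T w : ℝ) : ℝ := √(Real.pi / (1 / T ^ 2)) * Real.exp (-(T ^ 2 / 4) * w ^ 2)

theorem Kr_nonneg (T w : ℝ) : 0 ≤ Kr T w := by unfold Kr; positivity

theorem Kr_int {T : ℝ} (hT : 0 < T) : Integrable (Kr T) :=
  (integrable_exp_neg_mul_sq (show 0 < T ^ 2 / 4 by positivity)).const_mul _

theorem Kr_val {T : ℝ} (hT : 0 < T) : ∫ w, Kr T w = 2 * Real.pi := by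
  unfold Kr
  rw [integral_const_mul, integral_gaussian, ← Real.sqrt_mul (by positivity)]
  rw [show Real.pi / (1 / T ^ 2) * (Real.pi / (T ^ 2 / 4)) = (2 * Real.pi) ^ 2 by
    field_simp; ring]
  exact Real.sqrt_sq (by positivity)

theorem gauss_norm {T : ℝ} (hT : 0 < T) (w : ℝ) :
    ‖∫ t : ℝ, (Gr T t : ℂ) * Complex.exp (-((t : ℂ) * w * Complex.I))‖ = Kr T w := by
  unfold Gr
  rw [gauss hT, norm_mul, Complex.norm_real, Real.norm_eq_abs, abs_of_pos (Real.exp_pos _),
    Complex.norm_cpow_eq_rpow_re_of_pos (by positivity)]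
  unfold Kr
  rw [Real.sqrt_eq_rpow]
  congr 2
  · norm_num
  · ring

section
variable {f : ℝ → ℂ} {T : ℝ}

theorem h_int (hT : 0 < T) (hf : Integrable f) :
    Integrable (fun t : ℝ => (Gr T t : ℂ) * conj (FT f t)) := by
  refine ((Gr_int hT).mul_const (∫ u, ‖f u‖)).mono' ?_ ?_
  · exact ((Complex.continuous_ofReal.comp (Gr_cont T)).mul
      (Complex.continuous_conj.comp (FT_cont hf))).aestronglyMeasurable
  · refine Eventually.of_forall fun t => ?_
    rw [norm_mul, Complex.norm_real, RCLike.norm_conj, Real.norm_eq_abs,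
      abs_of_pos (Gr_pos T t)]
    exact mul_le_mul_of_nonneg_left (FT_bd t) (Gr_pos T t).le

/-- the inner transform -/
noncomputable def Jt (f : ℝ → ℂ) (T u : ℝ) : ℂ :=
  ∫ t : ℝ, Complex.exp (-((t : ℂ) * u * Complex.I)) * ((Gr T t : ℂ) * conj (FT f t))

theorem swap1 (hT : 0 < T) (hf : Integrable f) :
    ∫ t : ℝ, (Gr T t : ℂ) * conj (FT f t) * FT f t = ∫ u, f u * Jt f T u := by
  have e1 : ∀ t : ℝ, (Gr T t : ℂ) * conj (FT f t) * FT f t =
      ∫ u, f u * (Complex.exp (-((t : ℂ) * u * Complex.I)) * ((Gr T t : ℂ) * conj (FT f t))) := by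
    intro t
    rw [show (∫ u, f u * (Complex.exp (-((t : ℂ) * u * Complex.I)) *
      ((Gr T t : ℂ) * conj (FT f t)))) = ∫ u, (f u * Complex.exp (-((t : ℂ) * u * Complex.I))) *
      ((Gr T t : ℂ) * conj (FT f t)) from by congr 1; funext u; ring, integral_mul_const]
    unfold FT
    ring
  simp_rw [e1]
  rw [integral_integral_swap]
  · apply integral_congr_ae
    refine Eventually.of_forall fun u => ?_
    show ∫ t : ℝ, f u * _ = f u * Jt f T u
    rw [integral_const_mul]
    rfl
  · have h := (h_int hT hf).mul_prod hf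
    refine h.mono ?_ (Eventually.of_forall fun z => ?_)
    · have hc : Continuous (fun z : ℝ × ℝ => Complex.exp (-((z.1 : ℂ) * z.2 * Complex.I))) := by
        fun_prop
      have := h.aestronglyMeasurable.mul hc.aestronglyMeasurable
      refine this.congr (Eventually.of_forall fun z => ?_)
      simp only [Pi.mul_apply, Function.uncurry]
      ring
    · simp only [Function.uncurry]
      rw [norm_mul, norm_mul, norm_e, one_mul, norm_mul _ (f z.2), mul_comm]

theorem swap2 (hT : 0 < T) (hf : Integrable f) (u : ℝ) :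
    Jt f T u = ∫ v, conj (f v) *
      ∫ t : ℝ, (Gr T t : ℂ) * Complex.exp (-((t : ℂ) * ((u - v : ℝ) : ℂ) * Complex.I)) := by
  unfold Jt
  have e0 : ∀ t v : ℝ, conj (Complex.exp (-((t : ℂ) * v * Complex.I))) =
      Complex.exp ((t : ℂ) * v * Complex.I) := by
    intro t v
    rw [← Complex.exp_conj]
    congr 1
    simp
  have e1 : ∀ t : ℝ, Complex.exp (-((t : ℂ) * u * Complex.I)) *
      ((Gr T t : ℂ) * conj (FT f t)) =
      ∫ v, conj (f v) * ((Gr T t : ℂ) *
        Complex.exp (-((t : ℂ) * ((u - v : ℝ) : ℂ) * Complex.I))) := by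
    intro t
    unfold FT
    rw [← integral_conj, ← integral_const_mul, ← integral_const_mul]
    congr 1
    funext v
    rw [map_mul, e0]
    have : Complex.exp (-((t : ℂ) * ((u - v : ℝ) : ℂ) * Complex.I)) =
        Complex.exp (-((t : ℂ) * u * Complex.I)) * Complex.exp ((t : ℂ) * v * Complex.I) := by
      rw [← Complex.exp_add]
      congr 1
      push_cast
      ring
    rw [this]
    ring
  simp_rw [e1]
  rw [integral_integral_swap]
  · apply integral_congr_ae
    refine Eventually.of_forall fun v => ?_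
    show ∫ t : ℝ, conj (f v) * _ = _
    rw [integral_const_mul]
  · have hfc : Integrable (fun v => conj (f v)) :=
      hf.congr' (Complex.continuous_conj.comp_aestronglyMeasurable hf.aestronglyMeasurable)
        (Eventually.of_forall fun v => by rw [RCLike.norm_conj])
    have hG : Integrable (fun t : ℝ => (Gr T t : ℂ)) := (Gr_int hT).ofReal
    have h := hG.mul_prod hfc
    refine h.mono ?_ (Eventually.of_forall fun z => ?_)
    · have hc : Continuous (fun z : ℝ × ℝ =>
          Complex.exp (-((z.1 : ℂ) * ((u - z.2 : ℝ) : ℂ) * Complex.I))) := by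
        fun_prop
      have := h.aestronglyMeasurable.mul hc.aestronglyMeasurable
      refine this.congr (Eventually.of_forall fun z => ?_)
      simp only [Pi.mul_apply, Function.uncurry]
      ring
    · simp only [Function.uncurry]
      rw [norm_mul, norm_mul (Gr T z.1 : ℂ), norm_e, mul_one, norm_mul _ (conj (f z.2)), mul_comm]

theorem bound_meas (hT : 0 < T) (hf : Integrable f) (hm : Measurable f)
    (hf2 : Integrable (fun u => ‖f u‖ ^ 2)) :
    ∫ t : ℝ, Gr T t * ‖FT f t‖ ^ 2 ≤ 2 * Real.pi * ∫ u, ‖f u‖ ^ 2 := by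
  have hI : ∫ t : ℝ, (Gr T t : ℂ) * conj (FT f t) * FT f t =
      ((∫ t : ℝ, Gr T t * ‖FT f t‖ ^ 2 : ℝ) : ℂ) := by
    have h0 := integral_ofReal (𝕜 := ℂ) (μ := (volume : Measure ℝ))
      (f := fun t : ℝ => Gr T t * ‖FT f t‖ ^ 2)
    refine Eq.trans ?_ h0
    congr 1
    funext t
    rw [mul_assoc, mul_comm (conj _) _, Complex.mul_conj, Complex.normSq_eq_norm_sq]
    push_cast
    rfl
  have hk : Measurable (fun w => ENNReal.ofReal (Kr T w)) := by
    unfold Kr; fun_prop
  have hA : Measurable (fun u => ‖f u‖ₑ) := hm.enorm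
  have key : ENNReal.ofReal (∫ t : ℝ, Gr T t * ‖FT f t‖ ^ 2) ≤
      (∫⁻ u, ‖f u‖ₑ ^ 2) * ∫⁻ w, ENNReal.ofReal (Kr T w) := by
    calc ENNReal.ofReal (∫ t : ℝ, Gr T t * ‖FT f t‖ ^ 2)
        ≤ ‖∫ t : ℝ, (Gr T t : ℂ) * conj (FT f t) * FT f t‖ₑ := by
          rw [hI, ← ofReal_norm, Complex.norm_real]
          exact ENNReal.ofReal_le_ofReal (le_abs_self _)
      _ = ‖∫ u, f u * Jt f T u‖ₑ := by rw [swap1 hT hf]
      _ ≤ ∫⁻ u, ‖f u * Jt f T u‖ₑ := enorm_integral_le_lintegral_enorm _
      _ ≤ ∫⁻ u, ‖f u‖ₑ * ∫⁻ v, ‖f v‖ₑ * ENNReal.ofReal (Kr T (u - v)) := by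
          refine lintegral_mono fun u => ?_
          rw [enorm_mul]
          refine mul_le_mul_right ?_ _
          rw [swap2 hT hf u]
          refine (enorm_integral_le_lintegral_enorm _).trans (le_of_eq ?_)
          apply lintegral_congr
          intro v
          rw [enorm_mul]
          congr 1
          · rw [← ofReal_norm, RCLike.norm_conj, ofReal_norm]
          · rw [← ofReal_norm, gauss_norm hT]
      _ ≤ _ := dbl hA hk
  have h2 : ∫⁻ u, ‖f u‖ₑ ^ 2 = ENNReal.ofReal (∫ u, ‖f u‖ ^ 2) := by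
    rw [ofReal_integral_eq_lintegral_ofReal hf2 (Eventually.of_forall fun u => by positivity)]
    apply lintegral_congr
    intro u
    rw [← ofReal_norm, ENNReal.ofReal_pow (norm_nonneg _)]
  have h3 : ∫⁻ w, ENNReal.ofReal (Kr T w) = ENNReal.ofReal (2 * Real.pi) := by
    rw [← Kr_val hT, ofReal_integral_eq_lintegral_ofReal (Kr_int hT)
      (Eventually.of_forall fun w => Kr_nonneg T w)]
  have hn : 0 ≤ ∫ u, ‖f u‖ ^ 2 := integral_nonneg fun u => by positivity
  rw [h2, h3, ← ENNReal.ofReal_mul hn] at key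
  have := (ENNReal.ofReal_le_ofReal_iff (by positivity)).1 key
  linarith

end

/-- row PL -/
theorem st_PL : ST_PL := by
  intro f hf hf2 T hT
  -- a measurable representative
  obtain ⟨f', hm, hff⟩ := hf.aestronglyMeasurable
  have hf' : Integrable f' := hf.congr hff
  have hf2' : Integrable (fun u => ‖f' u‖ ^ 2) :=
    hf2.congr (hff.mono fun u hu => by simp only [hu])
  have e1 : ∀ t : ℝ, ∫ u, f u * Complex.exp (-((t : ℂ) * u * Complex.I)) = FT f' t := by
    intro t
    unfold FT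
    exact integral_congr_ae (hff.mono fun u hu => by simp only [hu])
  have e2 : ∫ u, ‖f u‖ ^ 2 = ∫ u, ‖f' u‖ ^ 2 :=
    integral_congr_ae (hff.mono fun u hu => by simp only [hu])
  simp_rw [e1]
  rw [e2]
  have hb := bound_meas hT hf' hm.measurable hf2'
  have hcont : Continuous (fun t => Gr T t * ‖FT f' t‖ ^ 2) :=
    (Gr_cont T).mul ((FT_cont hf').norm.pow 2)
  have hint : Integrable (fun t => Gr T t * ‖FT f' t‖ ^ 2) := by
    refine ((Gr_int hT).mul_const ((∫ u, ‖f' u‖) ^ 2)).mono' hcont.aestronglyMeasurable ?_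
    refine Eventually.of_forall fun t => ?_
    rw [Real.norm_eq_abs, abs_of_nonneg (mul_nonneg (Gr_pos T t).le (by positivity))]
    exact mul_le_mul_of_nonneg_left (pow_le_pow_left₀ (norm_nonneg _) (FT_bd t) 2)
      (Gr_pos T t).le
  have hle : ∫ t in (-T)..T, ‖FT f' t‖ ^ 2 ≤
      Real.exp 1 * ∫ t : ℝ, Gr T t * ‖FT f' t‖ ^ 2 := by
    rw [intervalIntegral.integral_of_le (by linarith), ← integral_const_mul]
    calc ∫ t in Ioc (-T) T, ‖FT f' t‖ ^ 2
        ≤ ∫ t in Ioc (-T) T, Real.exp 1 * (Gr T t * ‖FT f' t‖ ^ 2) := by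
          refine setIntegral_mono_on ?_ (hint.const_mul _).integrableOn measurableSet_Ioc ?_
          · exact (((FT_cont hf').norm.pow 2).integrableOn_Icc).mono_set Ioc_subset_Icc_self
          · intro t ht
            have h1 : 1 ≤ Real.exp 1 * Gr T t := by
              have hs : (t / T) ^ 2 ≤ 1 := by
                rw [div_pow, div_le_one (by positivity)]
                exact sq_le_sq' ht.1.le ht.2
              have he0 : Real.exp 0 ≤ Real.exp (1 + -(t / T) ^ 2) :=
                Real.exp_le_exp.2 (by linarith)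
              rw [Real.exp_zero, Real.exp_add] at he0
              exact he0
            calc ‖FT f' t‖ ^ 2 = 1 * ‖FT f' t‖ ^ 2 := (one_mul _).symm
              _ ≤ (Real.exp 1 * Gr T t) * ‖FT f' t‖ ^ 2 :=
                mul_le_mul_of_nonneg_right h1 (by positivity)
              _ = _ := by ring
      _ ≤ ∫ t : ℝ, Real.exp 1 * (Gr T t * ‖FT f' t‖ ^ 2) := by
          refine setIntegral_le_integral (hint.const_mul _) (Eventually.of_forall fun t => ?_)
          have := Gr_pos T t
          positivity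
  have hn : 0 ≤ ∫ u, ‖f' u‖ ^ 2 := integral_nonneg fun u => by positivity
  have he : Real.exp 1 < 3 := lt_trans Real.exp_one_lt_d9 (by norm_num)
  have hpi : Real.pi < 4 := Real.pi_lt_four
  have hpi0 := Real.pi_pos
  calc ∫ t in (-T)..T, ‖FT f' t‖ ^ 2 ≤ Real.exp 1 * ∫ t : ℝ, Gr T t * ‖FT f' t‖ ^ 2 := hle
    _ ≤ Real.exp 1 * (2 * Real.pi * ∫ u, ‖f' u‖ ^ 2) :=
      mul_le_mul_of_nonneg_left hb (Real.exp_pos 1).le
    _ = (Real.exp 1 * (2 * Real.pi)) * ∫ u, ‖f' u‖ ^ 2 := by ring
    _ ≤ 100 * ∫ u, ‖f' u‖ ^ 2 := by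
      apply mul_le_mul_of_nonneg_right _ hn
      nlinarith

end Pool.Agent.Helper76.QZ
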